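import Mathlib

namespace Pool.Agent.Q206.Unc

open Real

lemma nonneg_of_deriv {f f' : ℝ → ℝ} (hf : ∀ x, HasDerivAt f (f' x) x) (h0 : f 0 = 0)
    (hpos : ∀ x, 0 ≤ x → 0 ≤ f' x) (x : ℝ) (hx : 0 ≤ x) : 0 ≤ f x := by
  have hm : MonotoneOn f (Set.Ici 0) := by
    apply monotoneOn_of_deriv_nonneg (convex_Ici 0)
    · exact fun y _ => (hf y).continuousAt.continuousWithinAt
    · intro y _
      exact (hf y).differentiableAt.differentiableWithinAt
    · intro y hy
      rw [(hf y).deriv]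
      rw [interior_Ici] at hy
      exact hpos y (le_of_lt hy)
  have := hm (Set.mem_Ici.2 le_rfl) (Set.mem_Ici.2 hx) hx
  rwa [h0] at this

lemma cos_le_P4 (x : ℝ) (hx : 0 ≤ x) : cos x ≤ 1 - x ^ 2 / 2 + x ^ 4 / 24 := by
  have := nonneg_of_deriv (f := fun x => 1 - x ^ 2 / 2 + x ^ 4 / 24 - cos x)
    (f' := fun x => sin x - (x - x ^ 3 / 6))
    (by
      intro y
      have h1 := ((((hasDerivAt_const y (1:ℝ)).sub ((hasDerivAt_pow 2 y).div_const 2)).add
        ((hasDerivAt_pow 4 y).div_const 24)).sub (hasDerivAt_cos y))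
      convert! h1 using 1
      simp; ring)
    (by simp) (by intro y hy; linarith [sin_ge_sub_cube hy]) x hx
  linarith

lemma sin_le_P5 (x : ℝ) (hx : 0 ≤ x) : sin x ≤ x - x ^ 3 / 6 + x ^ 5 / 120 := by
  have := nonneg_of_deriv (f := fun x => x - x ^ 3 / 6 + x ^ 5 / 120 - sin x)
    (f' := fun x => 1 - x ^ 2 / 2 + x ^ 4 / 24 - cos x)
    (by
      intro y
      have h1 := ((((hasDerivAt_id y).sub ((hasDerivAt_pow 3 y).div_const 6)).add
        ((hasDerivAt_pow 5 y).div_const 120)).sub (hasDerivAt_sin y))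
      convert! h1 using 1
      simp; ring)
    (by simp) (by intro y hy; linarith [cos_le_P4 y hy]) x hx
  linarith

lemma cos_ge_P6 (x : ℝ) (hx : 0 ≤ x) : 1 - x ^ 2 / 2 + x ^ 4 / 24 - x ^ 6 / 720 ≤ cos x := by
  have := nonneg_of_deriv (f := fun x => cos x - (1 - x ^ 2 / 2 + x ^ 4 / 24 - x ^ 6 / 720))
    (f' := fun x => x - x ^ 3 / 6 + x ^ 5 / 120 - sin x)
    (by
      intro y
      have h1 := (hasDerivAt_cos y).sub ((((hasDerivAt_const y (1:ℝ)).sub
        ((hasDerivAt_pow 2 y).div_const 2)).add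
        ((hasDerivAt_pow 4 y).div_const 24)).sub ((hasDerivAt_pow 6 y).div_const 720))
      convert! h1 using 1
      simp; ring)
    (by simp) (by intro y hy; linarith [sin_le_P5 y hy]) x hx
  linarith

/-- `sin² y ≤ 0.74 y` -/
lemma sin_sq_le {y : ℝ} (hy : 0 ≤ y) : sin y ^ 2 ≤ 74 / 100 * y := by
  rcases le_total (100 / 74) y with h | h
  · have := sin_sq_le_one y
    linarith
  · have h1 : sin y ^ 2 ≤ y ^ 2 - y ^ 4 / 3 + 2 * y ^ 6 / 45 := by
      have h2 := cos_ge_P6 (2 * y) (by linarith)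
      have h3 : cos (2 * y) = 1 - 2 * sin y ^ 2 := by
        rw [cos_two_mul, cos_sq']; ring
      rw [h3] at h2
      nlinarith
    have h4 : 0 ≤ 74 / 100 - y + y ^ 3 / 3 - 2 * y ^ 5 / 45 := by
      have hy2 : y ≤ 136 / 100 := by linarith
      have hq : 0 ≤ 2 / 15 * y + 2 / 5 * (49 / 40) - 2 / 45 * y ^ 3 - 4 * (49 / 40) / 45 * y ^ 2 := by
        have a1 : y ^ 2 ≤ (136 / 100) ^ 2 := by gcongr
        have a2 : y ^ 3 ≤ (136 / 100) ^ 3 := by gcongr
        nlinarith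
      nlinarith [mul_nonneg hq (sq_nonneg (y - 49 / 40))]
    have h5 : y ^ 2 - y ^ 4 / 3 + 2 * y ^ 6 / 45 = y * (y - y ^ 3 / 3 + 2 * y ^ 5 / 45) := by ring
    have h6 : y * (y - y ^ 3 / 3 + 2 * y ^ 5 / 45) ≤ y * (74 / 100) :=
      mul_le_mul_of_nonneg_left (by linarith) hy
    linarith

lemma sin_sq_ge {y : ℝ} (hy : 0 ≤ y) : y ^ 2 - y ^ 4 / 3 ≤ sin y ^ 2 := by
  have h := sin_ge_sub_cube hy
  rcases le_total 0 (y - y ^ 3 / 6) with h1 | h1
  · have h2 : (y - y ^ 3 / 6) ^ 2 ≤ sin y ^ 2 := by gcongr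
    nlinarith [sq_nonneg (y ^ 3)]
  · rcases hy.eq_or_lt with h0 | h0
    · rw [← h0]; simp
    have h2 : 6 ≤ y ^ 2 := by
      by_contra hc
      push Not at hc
      have : 0 < y * (1 - y ^ 2 / 6) := mul_pos h0 (by linarith)
      nlinarith
    nlinarith [sq_nonneg (sin y), sq_nonneg y]

lemma sin_sq_le_sq' (y : ℝ) : sin y ^ 2 ≤ y ^ 2 := by
  have := abs_sin_le_abs (x := y)
  exact sq_le_sq.2 this

/-- the difference of the two spikes -/
lemma spike_bounds {t : ℝ} (ht : 0 < t) :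
    |sin (t / 2000) ^ 2 / (t / 2000) - sin (t / 25) ^ 2 / 2000 / ((1 / 25) ^ 2 * t)| ≤ t / 2000 ∧
    |sin (t / 2000) ^ 2 / (t / 2000) - sin (t / 25) ^ 2 / 2000 / ((1 / 25) ^ 2 * t)| ≤
      t / 2000 * ((t / 25) ^ 2 / 3) ∧
    |sin (t / 2000) ^ 2 / (t / 2000) - sin (t / 25) ^ 2 / 2000 / ((1 / 25) ^ 2 * t)| ≤
      max (74 / 100) (5 / 16 / t) := by
  set p := sin (t / 2000) ^ 2 / (t / 2000) with hp
  set q := sin (t / 25) ^ 2 / 2000 / ((1 / 25) ^ 2 * t) with hq
  have hη : 0 < t / 2000 := by positivity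
  have p0 : 0 ≤ p := by positivity
  have q0 : 0 ≤ q := by positivity
  have p1 : p ≤ t / 2000 := by
    rw [hp, div_le_iff₀ hη]
    have := sin_sq_le_sq' (t / 2000)
    nlinarith
  have q1 : q ≤ t / 2000 := by
    rw [hq, div_le_iff₀ (by positivity)]
    have := sin_sq_le_sq' (t / 25)
    nlinarith
  have p2 : t / 2000 * (1 - (t / 25) ^ 2 / 3) ≤ p := by
    rw [hp, le_div_iff₀ hη]
    have h1 := sin_sq_ge hη.le
    have h2 : t / 2000 * (1 - (t / 25) ^ 2 / 3) * (t / 2000) ≤ (t / 2000) ^ 2 - (t / 2000) ^ 4 / 3 := by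
      have : (t / 2000) ^ 4 ≤ (t / 2000) ^ 2 * (t / 25) ^ 2 := by
        have : (t / 2000) ^ 2 ≤ (t / 25) ^ 2 := by gcongr; norm_num
        nlinarith [sq_nonneg (t / 2000)]
      nlinarith
    linarith
  have q2 : t / 2000 * (1 - (t / 25) ^ 2 / 3) ≤ q := by
    rw [hq, le_div_iff₀ (by positivity)]
    have h1 := sin_sq_ge (y := t / 25) (by positivity)
    nlinarith
  have p3 : p ≤ 74 / 100 := by
    rw [hp, div_le_iff₀ hη]
    exact sin_sq_le hη.le
  have q3 : q ≤ 5 / 16 / t := by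
    rw [hq, div_le_div_iff₀ (by positivity) ht]
    have := sin_sq_le_one (t / 25)
    nlinarith
  refine ⟨?_, ?_, ?_⟩
  · rw [abs_le]; constructor <;> linarith
  · rw [abs_le]; constructor <;> nlinarith
  · rw [abs_le]
    constructor
    · have := le_max_right (74 / 100) (5 / 16 / t); linarith
    · have := le_max_left (74 / 100) (5 / 16 / t); linarith

theorem F_bound {t : ℝ} (ht : 0 < t) :
    |sin (1979 / 2000 * t) * sin (21 / 2000 * t) / (21 / 2000 * t) -
      5 / 4 * (sin (t / 2000) ^ 2 / (t / 2000) - sin (t / 25) ^ 2 / 2000 / ((1 / 25) ^ 2 * t))| ≤ 1 := by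
  obtain ⟨b1, b2, b3⟩ := spike_bounds ht
  set s := sin (t / 2000) ^ 2 / (t / 2000) - sin (t / 25) ^ 2 / 2000 / ((1 / 25) ^ 2 * t) with hs
  set x := 21 / 2000 * t with hx
  have hx0 : 0 < x := by positivity
  have key : |sin (1979 / 2000 * t) * sin x / x| ≤ |sin x| / x := by
    rw [abs_div, abs_mul, abs_of_pos hx0]
    gcongr
    have := abs_sin_le_one (1979 / 2000 * t)
    have h2 := abs_nonneg (sin x)
    nlinarith
  have goal' : |sin x| / x + 5 / 4 * |s| ≤ 1 →
      |sin (1979 / 2000 * t) * sin x / x - 5 / 4 * s| ≤ 1 := by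
    intro h
    calc _ ≤ |sin (1979 / 2000 * t) * sin x / x| + |5 / 4 * s| := abs_sub _ _
      _ ≤ |sin x| / x + 5 / 4 * |s| := by
          rw [abs_mul, abs_of_pos (show (0:ℝ) < 5 / 4 by norm_num)]
          linarith
      _ ≤ 1 := h
  apply goal'
  have ht' : t = 2000 / 21 * x := by rw [hx]; ring
  rcases le_total x 2 with h1 | h1
  · have hsin : 0 ≤ sin x := sin_nonneg_of_nonneg_of_le_pi hx0.le (by linarith [pi_gt_three])
    rw [abs_of_nonneg hsin]
    have h2 : sin x / x ≤ 1 - x ^ 2 / 6 + x ^ 4 / 120 := by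
      rw [div_le_iff₀ hx0]
      have := sin_le_P5 x hx0.le
      nlinarith
    have h3 : |s| ≤ t / 2000 * (58 / 100 * (t / 25)) := by
      rcases le_total (t / 25) (174 / 100) with h4 | h4
      · refine b2.trans ?_
        have : (t / 25) ^ 2 / 3 ≤ 58 / 100 * (t / 25) := by nlinarith [show 0 < t / 25 by positivity]
        exact mul_le_mul_of_nonneg_left this (by positivity)
      · refine b1.trans ?_
        have : (1:ℝ) ≤ 58 / 100 * (t / 25) := by linarith
        nlinarith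
    have h5 : 5 / 4 * (t / 2000 * (58 / 100 * (t / 25))) ≤ x ^ 2 / 6 - x ^ 4 / 120 := by
      rw [ht']
      have h6 : x ^ 4 ≤ 4 * x ^ 2 := by
        have : x ^ 2 ≤ 4 := by nlinarith
        nlinarith [sq_nonneg x]
      nlinarith [sq_nonneg x]
    linarith
  · have h2 : |sin x| / x ≤ 1 / x := by
      gcongr
      exact abs_sin_le_one x
    rcases le_total x 15 with h3 | h3
    · have h4 : |s| ≤ x / 21 := by
        refine b1.trans (le_of_eq ?_)
        rw [ht']; ring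
      have h5 : 1 / x + 5 / 4 * (x / 21) ≤ 1 := by
        rw [div_add' _ _ _ hx0.ne', div_le_one hx0]
        nlinarith
      linarith
    · have h4 : |s| ≤ 74 / 100 := by
        refine b3.trans (max_le le_rfl ?_)
        rw [div_le_iff₀ ht]
        linarith
      have h5 : 1 / x ≤ 1 / 15 := by gcongr
      linarith

end Pool.Agent.Q206.Unc
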