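import Pool.Agent.Q206.Unc.Func

namespace Pool.Agent.Q206.Unc

open MeasureTheory Complex FourierTransform
open scoped ENNReal

/-- `‖ξ û(ξ)‖_∞` (a supremum over all `ξ`; for integrable `u` the function `û` is continuous), with the
Fourier transform `û(ξ) = ∫ u(x) exp(-2πiξx) dx` of Mathlib -/
noncomputable def supXi (u : ℝ → ℂ) : ℝ≥0∞ := ⨆ ξ : ℝ, ENNReal.ofReal (|ξ| * ‖𝓕 u ξ‖)

/-- `Φ_α(u) = ‖ξ û(ξ)‖_∞^α ‖|x|^α u‖₁ / ‖u‖₁^(α+1)`, with values in `[0, ∞]` -/
noncomputable def Phi (α : ℝ) (u : ℝ → ℂ) : ℝ≥0∞ :=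
  supXi u ^ α * (∫⁻ x, ENNReal.ofReal (|x| ^ α * ‖u x‖)) /
    (∫⁻ x, ENNReal.ofReal ‖u x‖) ^ (α + 1)

/-- the indicator function of `[-1/2, 1/2]` -/
noncomputable def chi (x : ℝ) : ℂ := Set.indicator (Set.Icc (-1 / 2 : ℝ) (1 / 2)) 1 x

theorem norm_chi (x : ℝ) : ‖chi x‖ = Set.indicator (Set.Icc (-1 / 2 : ℝ) (1 / 2)) 1 x := by
  unfold chi
  by_cases hx : x ∈ Set.Icc (-1 / 2 : ℝ) (1 / 2)
  · rw [Set.indicator_of_mem hx, Set.indicator_of_mem hx]; simp
  · rw [Set.indicator_of_notMem hx, Set.indicator_of_notMem hx]; simp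

theorem integral_chi_norm : ∫⁻ x, ENNReal.ofReal ‖chi x‖ = 1 := by
  have : ∀ x, ENNReal.ofReal ‖chi x‖ =
      Set.indicator (Set.Icc (-1 / 2 : ℝ) (1 / 2)) (fun _ => (1 : ℝ≥0∞)) x := by
    intro x
    rw [norm_chi]
    by_cases hx : x ∈ Set.Icc (-1 / 2 : ℝ) (1 / 2)
    · rw [Set.indicator_of_mem hx, Set.indicator_of_mem hx]; simp
    · rw [Set.indicator_of_notMem hx, Set.indicator_of_notMem hx]; simp
  simp only [this]
  rw [lintegral_indicator measurableSet_Icc]
  simp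
  norm_num

theorem fourier_chi_half : 𝓕 chi (1 / 2) = ((2 / Real.pi : ℝ) : ℂ) := by
  rw [Real.fourier_real_eq_integral_exp_smul]
  have h1 : ∀ v : ℝ, Complex.exp (((-2 * Real.pi * v * (1 / 2) : ℝ) : ℂ) * I) • chi v =
      Set.indicator (Set.Icc (-1 / 2 : ℝ) (1 / 2)) (fun v : ℝ => Complex.exp ((-(Real.pi : ℂ) * I) * v)) v := by
    intro v
    unfold chi
    by_cases hx : v ∈ Set.Icc (-1 / 2 : ℝ) (1 / 2)
    · rw [Set.indicator_of_mem hx, Set.indicator_of_mem hx]
      simp only [Pi.one_apply, smul_eq_mul, mul_one]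
      congr 1
      push_cast
      ring
    · rw [Set.indicator_of_notMem hx, Set.indicator_of_notMem hx]; simp
  simp only [h1]
  rw [integral_indicator measurableSet_Icc, integral_Icc_eq_integral_Ioc,
    ← intervalIntegral.integral_of_le (by norm_num), integral_exp_mul_complex]
  · have hpi : (Real.pi : ℂ) ≠ 0 := by exact_mod_cast Real.pi_pos.ne'
    have e1 : -(Real.pi : ℂ) * I * ((1 / 2 : ℝ) : ℂ) = -(Real.pi / 2 * I) := by push_cast; ring
    have e2 : -(Real.pi : ℂ) * I * ((-1 / 2 : ℝ) : ℂ) = Real.pi / 2 * I := by push_cast; ring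
    rw [e1, e2, Complex.exp_neg, Complex.exp_pi_div_two_mul_I]
    rw [Complex.inv_I]
    push_cast
    field_simp
    ring
  · have hpi : (Real.pi : ℂ) ≠ 0 := by exact_mod_cast Real.pi_pos.ne'
    exact mul_ne_zero (neg_ne_zero.2 hpi) I_ne_zero

theorem supXi_chi : ENNReal.ofReal (1 / Real.pi) ≤ supXi chi := by
  unfold supXi
  refine le_iSup_of_le (1 / 2) ?_
  rw [fourier_chi_half, Complex.norm_real, Real.norm_eq_abs]
  apply ENNReal.ofReal_le_ofReal
  have := Real.pi_pos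
  rw [abs_of_pos (by positivity : 0 < 2 / Real.pi), abs_of_pos (by norm_num : (0:ℝ) < 1 / 2)]
  rw [le_iff_lt_or_eq]
  right
  field_simp

theorem integral_abs_rpow {α : ℝ} (hα : 0 < α) :
    ∫ x in (-1 / 2 : ℝ)..(1 / 2), |x| ^ α = 1 / ((α + 1) * 2 ^ α) := by
  have hc : Continuous fun x : ℝ => |x| ^ α := by
    apply Continuous.rpow_const continuous_abs
    intro x; right; exact hα.le
  have h1 : ∫ x in (0 : ℝ)..(1 / 2), |x| ^ α = (1 / 2) ^ (α + 1) / (α + 1) := by
    have : ∫ x in (0 : ℝ)..(1 / 2), |x| ^ α = ∫ x in (0 : ℝ)..(1 / 2), x ^ α := by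
      apply intervalIntegral.integral_congr
      intro x hx
      rw [Set.uIcc_of_le (by norm_num), Set.mem_Icc] at hx
      simp only
      rw [abs_of_nonneg hx.1]
    rw [this, integral_rpow (Or.inl (by linarith)), Real.zero_rpow (by linarith)]
    ring
  have h2 : ∫ x in (-1 / 2 : ℝ)..0, |x| ^ α = ∫ x in (0 : ℝ)..(1 / 2), |x| ^ α := by
    have := intervalIntegral.integral_comp_neg (a := (0:ℝ)) (b := 1 / 2) (fun x : ℝ => |x| ^ α)
    simp only [neg_zero, abs_neg] at this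
    rw [this]
    norm_num
  rw [← intervalIntegral.integral_add_adjacent_intervals (b := 0) (hc.intervalIntegrable _ _)
    (hc.intervalIntegrable _ _), h2, h1]
  have h3 : ((1 / 2 : ℝ)) ^ (α + 1) = 1 / (2 * 2 ^ α) := by
    rw [Real.rpow_add (by norm_num), Real.rpow_one, Real.div_rpow (by norm_num) (by norm_num),
      Real.one_rpow]
    ring
  rw [h3]
  have h4 : (0 : ℝ) < 2 ^ α := Real.rpow_pos_of_pos (by norm_num) _
  field_simp
  ring

theorem moment_chi {α : ℝ} (hα : 0 < α) :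
    ∫⁻ x, ENNReal.ofReal (|x| ^ α * ‖chi x‖) = ENNReal.ofReal (1 / ((α + 1) * 2 ^ α)) := by
  have hc : Continuous fun x : ℝ => |x| ^ α := by
    apply Continuous.rpow_const continuous_abs
    intro x; right; exact hα.le
  have h1 : ∀ x : ℝ, ENNReal.ofReal (|x| ^ α * ‖chi x‖) =
      Set.indicator (Set.Icc (-1 / 2 : ℝ) (1 / 2)) (fun x => ENNReal.ofReal (|x| ^ α)) x := by
    intro x
    rw [norm_chi]
    by_cases hx : x ∈ Set.Icc (-1 / 2 : ℝ) (1 / 2)
    · rw [Set.indicator_of_mem hx, Set.indicator_of_mem hx]; simp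
    · rw [Set.indicator_of_notMem hx, Set.indicator_of_notMem hx]; simp
  simp only [h1]
  rw [lintegral_indicator measurableSet_Icc, ← ofReal_integral_eq_lintegral_ofReal
    (hc.continuousOn.integrableOn_compact isCompact_Icc)
    (Filter.Eventually.of_forall fun x => by positivity), integral_Icc_eq_integral_Ioc,
    ← intervalIntegral.integral_of_le (by norm_num), integral_abs_rpow hα]

theorem Phi_chi_ge {α : ℝ} (hα : 0 < α) :
    ENNReal.ofReal (1 / Real.pi) ^ α * ENNReal.ofReal (1 / ((α + 1) * 2 ^ α)) ≤ Phi α chi := by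
  unfold Phi
  rw [moment_chi hα, integral_chi_norm, ENNReal.one_rpow, div_one]
  gcongr
  exact supXi_chi

end Pool.Agent.Q206.Unc
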