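import Mathlib

namespace Pool.Agent.Q206.Unc

open MeasureTheory Complex FourierTransform

/-- the tent `(h - |x|)₊` -/
noncomputable def g (h x : ℝ) : ℝ := max (h - |x|) 0

theorem continuous_g (h : ℝ) : Continuous (g h) := by
  unfold g; fun_prop

theorem g_nonneg (h x : ℝ) : 0 ≤ g h x := le_max_right _ _

theorem g_eq_zero {h x : ℝ} (hx : h ≤ |x|) : g h x = 0 := by
  unfold g; exact max_eq_right (by linarith)

theorem g_eq {h x : ℝ} (hx : |x| ≤ h) : g h x = h - |x| := by
  unfold g; exact max_eq_left (by linarith)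

theorem hasCompactSupport_g (h : ℝ) : HasCompactSupport (g h) := by
  refine HasCompactSupport.of_support_subset_isCompact (isCompact_Icc (a := -h) (b := h)) ?_
  intro x hx
  rw [Function.mem_support] at hx
  by_contra hc
  apply hx
  apply g_eq_zero
  rw [Set.mem_Icc, not_and_or, not_le, not_le] at hc
  rcases hc with hc | hc
  · have := neg_le_abs x; linarith
  · have := le_abs_self x; linarith

theorem integrable_g (h : ℝ) : Integrable (g h) :=
  (continuous_g h).integrable_of_hasCompactSupport (hasCompactSupport_g h)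

/-- integrals against the tent -/
theorem integral_g_mul {h : ℝ} (hh : 0 ≤ h) (φ : ℝ → ℂ) (hφ : Continuous φ) :
    ∫ x, φ x * (g h x : ℂ) =
      (∫ x in (0:ℝ)..h, φ x * ((h - x : ℝ) : ℂ)) + ∫ x in (0:ℝ)..h, φ (-x) * ((h - x : ℝ) : ℂ) := by
  have h1 : ∫ x, φ x * (g h x : ℂ) = ∫ x in (-h)..h, φ x * (g h x : ℂ) := by
    rw [intervalIntegral.integral_of_le (by linarith), ← integral_indicator measurableSet_Ioc]
    congr 1
    funext x
    by_cases hx : x ∈ Set.Ioc (-h) h
    · rw [Set.indicator_of_mem hx]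
    · rw [Set.indicator_of_notMem hx]
      have : g h x = 0 := by
        apply g_eq_zero
        rw [Set.mem_Ioc, not_and_or, not_lt, not_le] at hx
        rcases hx with hx | hx
        · have := neg_le_abs x; linarith
        · have := le_abs_self x; linarith
      rw [this]; simp
  have hc : Continuous fun x => φ x * (g h x : ℂ) :=
    hφ.mul (Complex.continuous_ofReal.comp (continuous_g h))
  rw [h1, ← intervalIntegral.integral_add_adjacent_intervals (b := 0) (hc.intervalIntegrable _ _)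
    (hc.intervalIntegrable _ _), add_comm]
  congr 1
  · apply intervalIntegral.integral_congr
    intro x hx
    rw [Set.uIcc_of_le hh, Set.mem_Icc] at hx
    simp only
    rw [g_eq (by rw [abs_of_nonneg hx.1]; exact hx.2), abs_of_nonneg hx.1]
  · have h2 := intervalIntegral.integral_comp_neg (a := (0:ℝ)) (b := h)
      (fun x => φ x * (g h x : ℂ))
    simp only [neg_zero] at h2
    rw [← h2]
    apply intervalIntegral.integral_congr
    intro x hx
    rw [Set.uIcc_of_le hh, Set.mem_Icc] at hx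
    simp only
    rw [g_eq (by rw [abs_neg, abs_of_nonneg hx.1]; exact hx.2), abs_neg, abs_of_nonneg hx.1]

theorem integral_exp_mul {h : ℝ} {l : ℂ} (hl : l ≠ 0) :
    ∫ x in (0:ℝ)..h, Complex.exp (l * x) * ((h - x : ℝ) : ℂ) =
      Complex.exp (l * h) / l ^ 2 - (h / l + 1 / l ^ 2) := by
  have hd : ∀ x : ℝ, HasDerivAt (fun x : ℝ => ((h - x : ℝ) : ℂ) * (Complex.exp (l * x) / l) +
      Complex.exp (l * x) / l ^ 2) (Complex.exp (l * x) * ((h - x : ℝ) : ℂ)) x := by
    intro x
    have e0 : HasDerivAt (fun x : ℝ => (x : ℂ)) 1 x := Complex.ofRealCLM.hasDerivAt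
    have e1 : HasDerivAt (fun x : ℝ => Complex.exp (l * x)) (Complex.exp (l * x) * (l * 1)) x :=
      (e0.const_mul l).cexp
    have e2 : HasDerivAt (fun x : ℝ => ((h - x : ℝ) : ℂ)) (-1) x := by
      have : (fun x : ℝ => ((h - x : ℝ) : ℂ)) = fun x : ℝ => (h : ℂ) - (x : ℂ) := by
        funext y; push_cast; ring
      rw [this]
      exact e0.const_sub _
    refine ((e2.mul (e1.div_const l)).add (e1.div_const (l ^ 2))).congr_deriv ?_
    rw [mul_one, sq]
    field_simp
    push_cast
    ring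
  rw [intervalIntegral.integral_eq_sub_of_hasDerivAt (fun x _ => hd x)]
  · simp
    ring
  · apply Continuous.intervalIntegrable
    fun_prop

/-- The Fourier transform of the tent. -/
theorem fourier_g {h : ℝ} (hh : 0 ≤ h) {ξ : ℝ} (hξ : ξ ≠ 0) :
    𝓕 (fun x : ℝ => (g h x : ℂ)) ξ = ((Real.sin (Real.pi * ξ * h) ^ 2 / (Real.pi * ξ) ^ 2 : ℝ) : ℂ) := by
  rw [Real.fourier_real_eq_integral_exp_smul]
  simp only [smul_eq_mul]
  rw [integral_g_mul hh _ (by fun_prop)]
  set l : ℂ := ((-2 * Real.pi * ξ : ℝ) : ℂ) * I with hl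
  have hl0 : l ≠ 0 := by
    rw [hl]
    refine mul_ne_zero ?_ I_ne_zero
    rw [Complex.ofReal_ne_zero]
    have := Real.pi_pos.ne'
    positivity
  have e1 : ∀ x : ℝ, Complex.exp (((-2 * Real.pi * x * ξ : ℝ) : ℂ) * I) = Complex.exp (l * x) := by
    intro x; congr 1; rw [hl]; push_cast; ring
  have e2 : ∀ x : ℝ, Complex.exp (l * ((-x : ℝ) : ℂ)) = Complex.exp ((-l) * x) := by
    intro x; congr 1; push_cast; ring
  simp only [e1, e2]
  rw [integral_exp_mul hl0, integral_exp_mul (neg_ne_zero.2 hl0)]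
  have h3 : Complex.exp (l * h) + Complex.exp (-l * h) =
      2 * ((Real.cos (2 * (Real.pi * ξ * h)) : ℝ) : ℂ) := by
    rw [Complex.ofReal_cos, Complex.two_cos, hl]
    push_cast
    rw [add_comm]
    congr 2 <;> ring
  have h4 : l ^ 2 = ((-(2 * Real.pi * ξ) ^ 2 : ℝ) : ℂ) := by
    rw [hl, mul_pow, I_sq]; push_cast; ring
  have h5 : Complex.exp (l * h) / l ^ 2 - (h / l + 1 / l ^ 2) +
      (Complex.exp (-l * h) / (-l) ^ 2 - (h / (-l) + 1 / (-l) ^ 2)) =
      ((Complex.exp (l * h) + Complex.exp (-l * h)) - 2) / l ^ 2 := by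
    rw [neg_sq]
    field_simp
    ring
  rw [h5, h3, h4, Real.cos_two_mul']
  have h6 : Real.cos (Real.pi * ξ * h) ^ 2 = 1 - Real.sin (Real.pi * ξ * h) ^ 2 := by
    rw [Real.cos_sq']
  rw [h6]
  have h7 : (Real.pi : ℂ) ≠ 0 := by exact_mod_cast Real.pi_pos.ne'
  have h8 : (ξ : ℂ) ≠ 0 := by exact_mod_cast hξ
  push_cast
  field_simp
  ring

end Pool.Agent.Q206.Unc
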