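import Pool.Agent.Q206.Unc.Four
import Pool.Agent.Q206.Unc.Bound

namespace Pool.Agent.Q206.Unc

open MeasureTheory Complex FourierTransform

/-- real integrals against the tent -/
theorem integral_sq_g {h : ℝ} (hh : 0 ≤ h) : ∫ x, x ^ 2 * g h x = h ^ 4 / 6 := by
  have h1 := integral_g_mul hh (fun x => ((x ^ 2 : ℝ) : ℂ)) (by fun_prop)
  have h2 : ∀ x : ℝ, ((((-x) ^ 2 : ℝ) : ℂ)) * ((h - x : ℝ) : ℂ) = ((x ^ 2 * (h - x) : ℝ) : ℂ) := by
    intro x; push_cast; ring
  have h3 : ∀ x : ℝ, (((x ^ 2 : ℝ) : ℂ)) * ((h - x : ℝ) : ℂ) = ((x ^ 2 * (h - x) : ℝ) : ℂ) := by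
    intro x; push_cast; ring
  have h4 : ∫ x in (0:ℝ)..h, x ^ 2 * (h - x) = h ^ 4 / 12 := by
    have : ∀ x : ℝ, x ^ 2 * (h - x) = h * x ^ 2 - x ^ 3 := fun x => by ring
    simp only [this]
    rw [intervalIntegral.integral_sub (by apply Continuous.intervalIntegrable; fun_prop)
      (by apply Continuous.intervalIntegrable; fun_prop), intervalIntegral.integral_const_mul,
      integral_pow, integral_pow]
    ring
  simp only [h2, h3] at h1
  rw [intervalIntegral.integral_ofReal, h4] at h1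
  have h5 : ∀ x : ℝ, (((x ^ 2 : ℝ) : ℂ)) * (g h x : ℂ) = ((x ^ 2 * g h x : ℝ) : ℂ) := by
    intro x; push_cast; ring
  simp only [h5] at h1
  have h7 : ∫ x, ((x ^ 2 * g h x : ℝ) : ℂ) = ((∫ x, x ^ 2 * g h x : ℝ) : ℂ) :=
    integral_complex_ofReal
  rw [h7] at h1
  have h6 : ((∫ x, x ^ 2 * g h x : ℝ) : ℂ) = ((h ^ 4 / 6 : ℝ) : ℂ) := by
    rw [h1]; push_cast; ring
  exact_mod_cast h6

theorem integral_g {h : ℝ} (hh : 0 ≤ h) : ∫ x, g h x = h ^ 2 := by
  have h1 := integral_g_mul hh (fun _ => (1 : ℂ)) (by fun_prop)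
  have h4 : ∫ x in (0:ℝ)..h, (h - x) = h ^ 2 / 2 := by
    rw [intervalIntegral.integral_sub (by apply Continuous.intervalIntegrable; fun_prop)
      (by apply Continuous.intervalIntegrable; fun_prop), integral_id,
      intervalIntegral.integral_const]
    simp; ring
  simp only [one_mul] at h1
  have h7 : ∫ x, ((g h x : ℝ) : ℂ) = ((∫ x, g h x : ℝ) : ℂ) :=
    integral_complex_ofReal
  rw [intervalIntegral.integral_ofReal, h4, h7] at h1
  have h6 : ((∫ x, g h x : ℝ) : ℂ) = ((h ^ 2 : ℝ) : ℂ) := by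
    rw [h1]; push_cast; ring
  exact_mod_cast h6

theorem integrable_sq_g (h : ℝ) : Integrable fun x => x ^ 2 * g h x :=
  ((continuous_pow 2).mul (continuous_g h)).integrable_of_hasCompactSupport
    (hasCompactSupport_g h).mul_left

/-- the counterexample: a smoothed indicator function of an interval minus a tent-shaped spike -/
noncomputable def u (x : ℝ) : ℝ :=
  (g (1 / 2) x - g (979 / 2000) x) / (21 / 2000) - 2500 * g (1 / 2000) x
    + 25 / 64 * g (1 / 25) x

/-- the slope of `u` at the spike -/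
theorem slope : (2500 : ℝ) - 25 / 64 = 159975 / 64 := by norm_num

theorem g_mono {a b x : ℝ} (h : a ≤ b) : g a x ≤ g b x := by
  unfold g; exact max_le_max (by linarith) le_rfl

theorem trap_nonneg (x : ℝ) : 0 ≤ (g (1 / 2) x - g (979 / 2000) x) / (21 / 2000) :=
  div_nonneg (sub_nonneg.2 (g_mono (by norm_num))) (by norm_num)

/-- near the origin -/
theorem u_near {x : ℝ} (hx : |x| ≤ 1 / 2000) : u x = 159975 / 64 * (|x| - 1 / 10665) := by
  unfold u
  rw [g_eq (h := 1 / 2) (by linarith), g_eq (h := 979 / 2000) (by linarith), g_eq hx,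
    g_eq (h := 1 / 25) (by linarith)]
  ring

theorem u_far {x : ℝ} (hx : 1 / 2000 ≤ |x|) : 0 ≤ u x := by
  unfold u
  rw [g_eq_zero hx]
  have := trap_nonneg x
  have h2 := g_nonneg (1 / 25) x
  linarith

theorem u_pos {x : ℝ} (hx : 1 / 2000 ≤ |x|) (hx2 : |x| < 1 / 2) : 0 < u x := by
  unfold u
  rw [g_eq_zero hx, g_eq (h := 1 / 2) hx2.le]
  have h2 := g_nonneg (1 / 25) x
  have h3 : 0 < 1 / 2 - |x| - g (979 / 2000) x := by
    unfold g
    rcases max_cases (979 / 2000 - |x|) 0 with h | h <;> linarith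
  have h4 : 0 < (1 / 2 - |x| - g (979 / 2000) x) / (21 / 2000) := by positivity
  linarith

theorem abs_u (x : ℝ) : |u x| = u x + 2 * (159975 / 64) * g (1 / 10665) x := by
  rcases le_total |x| (1 / 10665) with h | h
  · have h1 := u_near (x := x) (by linarith)
    rw [g_eq h, abs_of_nonpos (by rw [h1]; nlinarith), h1]
    ring
  · rw [g_eq_zero h]
    rcases le_total |x| (1 / 2000) with h2 | h2
    · have h1 := u_near h2
      rw [abs_of_nonneg (by rw [h1]; nlinarith)]
      ring
    · rw [abs_of_nonneg (u_far h2)]; ring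

theorem continuous_u : Continuous u := by
  unfold u
  have h1 := continuous_g (1 / 2)
  have h2 := continuous_g (979 / 2000)
  have h3 := continuous_g (1 / 2000)
  have h4 := continuous_g (1 / 25)
  fun_prop

theorem integrable_u : Integrable u := by
  unfold u
  exact ((((integrable_g _).sub (integrable_g _)).div_const _).sub
    ((integrable_g _).const_mul _)).add ((integrable_g _).const_mul _)

/-- integral of a combination of four functions -/
theorem integral_comb {a b c d : ℝ → ℂ} (ha : Integrable a)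
    (hb : Integrable b) (hc : Integrable c) (hd : Integrable d) (r s t : ℂ) :
    ∫ x, ((a x - b x) / r - s * c x + t * d x) =
      ((∫ x, a x) - ∫ x, b x) / r - s * (∫ x, c x) + t * ∫ x, d x := by
  have i1 : Integrable fun x => (a x - b x) / r := (ha.sub hb).div_const _
  have i2 : Integrable fun x => s * c x := hc.const_mul _
  have i3 : Integrable fun x => t * d x := hd.const_mul _
  have i4 : Integrable fun x => (a x - b x) / r - s * c x := i1.sub i2
  rw [integral_add i4 i3, integral_sub i1 i2, integral_div, integral_sub ha hb,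
    integral_const_mul, integral_const_mul]

/-- integral of a combination of four real functions -/
theorem integral_comb_real {a b c d : ℝ → ℝ} (ha : Integrable a)
    (hb : Integrable b) (hc : Integrable c) (hd : Integrable d) (r s t : ℝ) :
    ∫ x, ((a x - b x) / r - s * c x + t * d x) =
      ((∫ x, a x) - ∫ x, b x) / r - s * (∫ x, c x) + t * ∫ x, d x := by
  have i1 : Integrable fun x => (a x - b x) / r := (ha.sub hb).div_const _
  have i2 : Integrable fun x => s * c x := hc.const_mul _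
  have i3 : Integrable fun x => t * d x := hd.const_mul _
  have i4 : Integrable fun x => (a x - b x) / r - s * c x := i1.sub i2
  rw [integral_add i4 i3, integral_sub i1 i2, integral_div, integral_sub ha hb,
    integral_const_mul, integral_const_mul]

theorem integral_u : ∫ x, u x = 1979 / 2000 := by
  unfold u
  rw [integral_comb_real (integrable_g _) (integrable_g _) (integrable_g _) (integrable_g _),
    integral_g (by norm_num), integral_g (by norm_num),
    integral_g (by norm_num), integral_g (by norm_num)]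
  norm_num

theorem integrable_sq_u : Integrable fun x => x ^ 2 * u x := by
  have : (fun x => x ^ 2 * u x) = fun x => (x ^ 2 * g (1 / 2) x - x ^ 2 * g (979 / 2000) x) /
      (21 / 2000) - 2500 * (x ^ 2 * g (1 / 2000) x) + 25 / 64 * (x ^ 2 * g (1 / 25) x) := by
    funext x; unfold u; ring
  rw [this]
  exact ((((integrable_sq_g _).sub (integrable_sq_g _)).div_const _).sub
    ((integrable_sq_g _).const_mul _)).add ((integrable_sq_g _).const_mul _)

theorem integral_sq_u : ∫ x, x ^ 2 * u x =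
    ((1 / 2) ^ 4 / 6 - (979 / 2000) ^ 4 / 6) / (21 / 2000) - 2500 * ((1 / 2000) ^ 4 / 6) +
      25 / 64 * ((1 / 25) ^ 4 / 6) := by
  have : (fun x => x ^ 2 * u x) = fun x => (x ^ 2 * g (1 / 2) x - x ^ 2 * g (979 / 2000) x) /
      (21 / 2000) - 2500 * (x ^ 2 * g (1 / 2000) x) + 25 / 64 * (x ^ 2 * g (1 / 25) x) := by
    funext x; unfold u; ring
  rw [this, integral_comb_real (integrable_sq_g _) (integrable_sq_g _) (integrable_sq_g _)
    (integrable_sq_g _), integral_sq_g (by norm_num), integral_sq_g (by norm_num),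
    integral_sq_g (by norm_num), integral_sq_g (by norm_num)]

theorem integral_abs_u : ∫ x, |u x| = 1979 / 2000 + 2 * (159975 / 64) * (1 / 10665) ^ 2 := by
  simp only [abs_u]
  rw [integral_add integrable_u ((integrable_g _).const_mul _), integral_const_mul, integral_u,
    integral_g (by norm_num)]

theorem integral_sq_abs_u : ∫ x, x ^ 2 * |u x| =
    ((1 / 2) ^ 4 / 6 - (979 / 2000) ^ 4 / 6) / (21 / 2000) - 2500 * ((1 / 2000) ^ 4 / 6) +
      25 / 64 * ((1 / 25) ^ 4 / 6) + 2 * (159975 / 64) * ((1 / 10665) ^ 4 / 6) := by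
  have : ∀ x, x ^ 2 * |u x| = x ^ 2 * u x + 2 * (159975 / 64) * (x ^ 2 * g (1 / 10665) x) := by
    intro x; rw [abs_u]; ring
  simp only [this]
  rw [integral_add integrable_sq_u ((integrable_sq_g _).const_mul _), integral_const_mul,
    integral_sq_u, integral_sq_g (by norm_num)]

theorem final_ineq : (∫ x, x ^ 2 * |u x|) * 12 < (∫ x, |u x|) ^ 3 := by
  rw [integral_abs_u, integral_sq_abs_u]
  norm_num

/-- the Fourier transform of `u` -/
theorem fourier_u {ξ : ℝ} (hξ : ξ ≠ 0) : 𝓕 (fun x : ℝ => (u x : ℂ)) ξ =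
    ((((Real.sin (Real.pi * ξ * (1 / 2)) ^ 2 - Real.sin (Real.pi * ξ * (979 / 2000)) ^ 2) / (21 / 2000)
      - 2500 * Real.sin (Real.pi * ξ * (1 / 2000)) ^ 2
      + 25 / 64 * Real.sin (Real.pi * ξ * (1 / 25)) ^ 2) / (Real.pi * ξ) ^ 2 : ℝ) : ℂ) := by
  have hg : ∀ h : ℝ, 0 ≤ h → ∫ v : ℝ, Complex.exp (((-2 * Real.pi * v * ξ : ℝ) : ℂ) * I) * (g h v : ℂ) =
      ((Real.sin (Real.pi * ξ * h) ^ 2 / (Real.pi * ξ) ^ 2 : ℝ) : ℂ) := by
    intro h hh
    have := fourier_g hh hξ
    rw [Real.fourier_real_eq_integral_exp_smul] at this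
    simpa only [smul_eq_mul] using this
  have hi : ∀ h : ℝ, Integrable fun v : ℝ =>
      Complex.exp (((-2 * Real.pi * v * ξ : ℝ) : ℂ) * I) * (g h v : ℂ) := by
    intro h
    have hc : Continuous fun v : ℝ =>
      Complex.exp (((-2 * Real.pi * v * ξ : ℝ) : ℂ) * I) * (g h v : ℂ) := by
      have := continuous_g h
      fun_prop
    refine hc.integrable_of_hasCompactSupport ?_
    exact ((hasCompactSupport_g h).comp_left (g := fun x : ℝ => (x : ℂ)) (by simp)).mul_left
  rw [Real.fourier_real_eq_integral_exp_smul]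
  have h1 : ∀ v : ℝ, Complex.exp (((-2 * Real.pi * v * ξ : ℝ) : ℂ) * I) • ((u v : ℝ) : ℂ) =
      (Complex.exp (((-2 * Real.pi * v * ξ : ℝ) : ℂ) * I) * (g (1 / 2) v : ℂ) -
        Complex.exp (((-2 * Real.pi * v * ξ : ℝ) : ℂ) * I) * (g (979 / 2000) v : ℂ)) / (21 / 2000) -
      2500 * (Complex.exp (((-2 * Real.pi * v * ξ : ℝ) : ℂ) * I) * (g (1 / 2000) v : ℂ)) +
      25 / 64 * (Complex.exp (((-2 * Real.pi * v * ξ : ℝ) : ℂ) * I) * (g (1 / 25) v : ℂ)) := by
    intro v; unfold u; rw [smul_eq_mul]; push_cast; ring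
  simp only [h1]
  rw [integral_comb (hi _) (hi _) (hi _) (hi _),
    hg _ (by norm_num), hg _ (by norm_num), hg _ (by norm_num), hg _ (by norm_num)]
  push_cast
  ring

theorem xi_bound (ξ : ℝ) : |ξ| * ‖𝓕 (fun x : ℝ => (u x : ℂ)) ξ‖ ≤ 1 / Real.pi := by
  rcases eq_or_ne ξ 0 with h0 | h0
  · rw [h0, abs_zero, zero_mul]; positivity
  rw [fourier_u h0, Complex.norm_real, Real.norm_eq_abs]
  set t := Real.pi * |ξ| with ht
  have ht0 : 0 < t := by have := Real.pi_pos; positivity
  have hs : ∀ c : ℝ, Real.sin (Real.pi * ξ * c) ^ 2 = Real.sin (t * c) ^ 2 := by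
    intro c
    rcases abs_cases ξ with h | h
    · rw [ht, h.1]
    · rw [ht, h.1]
      have : Real.pi * -ξ * c = -(Real.pi * ξ * c) := by ring
      rw [this, Real.sin_neg, neg_sq]
  have hsq : (Real.pi * ξ) ^ 2 = t ^ 2 := by rw [ht, mul_pow, mul_pow, sq_abs]
  rw [hs, hs, hs, hs, hsq]
  have hF := F_bound ht0
  have hdiff : Real.sin (t * (1 / 2)) ^ 2 - Real.sin (t * (979 / 2000)) ^ 2 =
      Real.sin (1979 / 2000 * t) * Real.sin (21 / 2000 * t) := by
    have e1 : (1979 / 2000 : ℝ) * t = t * (1 / 2) + t * (979 / 2000) := by ring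
    have e2 : (21 / 2000 : ℝ) * t = t * (1 / 2) - t * (979 / 2000) := by ring
    rw [e1, e2, Real.sin_add, Real.sin_sub]
    have c1 := Real.cos_sq' (t * (1 / 2))
    have c2 := Real.cos_sq' (t * (979 / 2000))
    ring_nf
    ring_nf at c1 c2
    rw [c1, c2]
    ring
  have hnum : ((Real.sin (t * (1 / 2)) ^ 2 - Real.sin (t * (979 / 2000)) ^ 2) / (21 / 2000) -
      2500 * Real.sin (t * (1 / 2000)) ^ 2 + 25 / 64 * Real.sin (t * (1 / 25)) ^ 2) / t ^ 2 =
      (Real.sin (1979 / 2000 * t) * Real.sin (21 / 2000 * t) / (21 / 2000 * t) -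
      5 / 4 * (Real.sin (t / 2000) ^ 2 / (t / 2000) -
        Real.sin (t / 25) ^ 2 / 2000 / ((1 / 25) ^ 2 * t))) / t := by
    rw [hdiff]
    have e3 : t * (1 / 2000) = t / 2000 := by ring
    have e4 : t * (1 / 25) = t / 25 := by ring
    rw [e3, e4]
    field_simp
    ring
  rw [hnum, abs_div, abs_of_pos ht0]
  have hξ : |ξ| = t / Real.pi := by rw [ht]; field_simp
  rw [hξ]
  have hpi := Real.pi_pos
  have hgen : ∀ X : ℝ, |X| ≤ 1 → t / Real.pi * (|X| / t) ≤ 1 / Real.pi := by
    intro X hX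
    calc t / Real.pi * (|X| / t) = |X| / Real.pi := by field_simp
      _ ≤ 1 / Real.pi := by gcongr
  exact hgen _ hF

end Pool.Agent.Q206.Unc
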