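import Pool.Agent.Q206.Unc.GenMain

namespace Pool.Agent.Q206.Unc

open MeasureTheory Set Filter Topology
open scoped ENNReal

/-- trapezoid rule for a convex power -/
theorem hh {a b p : ℝ} (hb : 0 ≤ b) (hab : b < a) (hp : 1 ≤ p) :
    (a ^ (p + 1) - b ^ (p + 1)) / (a - b) ≤ (p + 1) * (a ^ p + b ^ p) / 2 := by
  have hd : 0 < a - b := by linarith
  have h1 : ∫ x in b..a, x ^ p = (a ^ (p + 1) - b ^ (p + 1)) / (p + 1) :=
    integral_rpow (Or.inl (by linarith))
  have h2 : ∫ x in b..a, x ^ p ≤ ∫ x in b..a, (b ^ p * (a - x) + a ^ p * (x - b)) / (a - b) := by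
    apply intervalIntegral.integral_mono_on hab.le
    · exact intervalIntegral.intervalIntegrable_rpow' (by linarith)
    · apply Continuous.intervalIntegrable
      fun_prop
    · intro x hx
      have q1 : 0 ≤ (a - x) / (a - b) := div_nonneg (by linarith [hx.2]) hd.le
      have q2 : 0 ≤ (x - b) / (a - b) := div_nonneg (by linarith [hx.1]) hd.le
      have q3 : (a - x) / (a - b) + (x - b) / (a - b) = 1 := by field_simp; ring
      have hc := (convexOn_rpow hp).2 (mem_Ici.2 hb) (mem_Ici.2 (hb.trans hab.le)) q1 q2 q3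
      simp only [smul_eq_mul] at hc
      have e : (a - x) / (a - b) * b + (x - b) / (a - b) * a = x := by
        field_simp; ring
      rw [e] at hc
      refine hc.trans (le_of_eq ?_)
      field_simp
  have h3 : ∫ x in b..a, (b ^ p * (a - x) + a ^ p * (x - b)) / (a - b) =
      (a - b) * (a ^ p + b ^ p) / 2 := by
    have hder : ∀ x ∈ uIcc b a, HasDerivAt
        (fun x => (-(b ^ p * (a - x) ^ 2 / 2) + a ^ p * (x - b) ^ 2 / 2) / (a - b))
        ((b ^ p * (a - x) + a ^ p * (x - b)) / (a - b)) x := by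
      intro x _
      have e1 : HasDerivAt (fun x => (a - x) ^ 2) (2 * (a - x) * (-1)) x := by
        have := ((hasDerivAt_id x).const_sub a).pow 2
        refine this.congr_deriv ?_
        simp
      have e2 : HasDerivAt (fun x => (x - b) ^ 2) (2 * (x - b) * 1) x := by
        have := ((hasDerivAt_id x).sub_const b).pow 2
        refine this.congr_deriv ?_
        simp
      refine (((((e1.const_mul (b ^ p)).div_const 2).neg).add
        ((e2.const_mul (a ^ p)).div_const 2)).div_const (a - b)).congr_deriv ?_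
      ring
    rw [intervalIntegral.integral_eq_sub_of_hasDerivAt hder]
    · field_simp
      ring
    · apply Continuous.intervalIntegrable
      fun_prop
  rw [h1, h3] at h2
  rw [div_le_iff₀ hd]
  rw [div_le_iff₀ (by linarith)] at h2
  linarith

/-- small parameters -/
theorem exists_small {α : ℝ} (hα : 0 < α) (C : ℝ) : ∃ r : ℝ, 0 < r ∧ r ≤ 1 ∧
    1 / 2 * (1 + (1 - 21 / 1000 * r) ^ (α + 1)) + C * r ^ (α + 1) <
      (1 - 21 / 2000 * r + r / 22752) ^ (α + 1) := by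
  set D : ℝ → ℝ := fun r => (1 - 21 / 2000 * r + r / 22752) ^ (α + 1) -
    (1 / 2 * (1 + (1 - 21 / 1000 * r) ^ (α + 1)) + C * r ^ (α + 1)) with hD
  have h1 : HasDerivAt (fun r : ℝ => 1 - 21 / 2000 * r + r / 22752) (-(21 / 2000 * 1) + 1 / 22752) 0 :=
    (((hasDerivAt_id (0:ℝ)).const_mul (21 / 2000)).const_sub 1).add
      ((hasDerivAt_id (0:ℝ)).div_const 22752)
  have h2 : HasDerivAt (fun r : ℝ => 1 - 21 / 1000 * r) (-(21 / 1000 * 1)) 0 :=
    ((hasDerivAt_id (0:ℝ)).const_mul (21 / 1000)).const_sub 1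
  have h3 : HasDerivAt D ((α + 1) / 22752) 0 := by
    refine ((h1.rpow_const (p := α + 1) (Or.inr (by linarith))).sub
      ((((h2.rpow_const (p := α + 1) (Or.inr (by linarith))).const_add 1).const_mul (1 / 2)).add
      (((hasDerivAt_id (0:ℝ)).rpow_const (p := α + 1) (Or.inr (by linarith))).const_mul C))).congr_deriv ?_
    simp only [mul_zero, sub_zero, zero_div, add_zero, add_sub_cancel_right, Real.one_rpow, id]
    rw [Real.zero_rpow hα.ne']
    ring
  have hD0 : D 0 = 0 := by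
    simp only [hD, mul_zero, sub_zero, zero_div, add_zero, Real.one_rpow]
    rw [Real.zero_rpow (by linarith)]
    norm_num
  have h4 := (hasDerivAt_iff_tendsto_slope.1 h3)
  have hpos : (0:ℝ) < (α + 1) / 22752 := by positivity
  have h5 : ∀ᶠ r in 𝓝[≠] (0:ℝ), 0 < _root_.slope D 0 r := h4.eventually (eventually_gt_nhds hpos)
  have h6 : ∀ᶠ r in 𝓝[>] (0:ℝ), 0 < _root_.slope D 0 r :=
    h5.filter_mono (nhdsWithin_mono _ (fun x hx => (ne_of_gt hx)))
  have h7 : ∀ᶠ r in 𝓝[>] (0:ℝ), r ∈ Ioc (0:ℝ) 1 := Ioc_mem_nhdsGT one_pos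
  obtain ⟨r, hr, hI⟩ := (h6.and h7).exists
  refine ⟨r, hI.1, hI.2, ?_⟩
  rw [slope_def_field, hD0, sub_zero, sub_zero] at hr
  have h8 : 0 < D r := by
    have := mul_pos hr hI.1
    rwa [div_mul_cancel₀ _ hI.1.ne'] at this
  simp only [hD] at h8
  linarith

theorem moment_le {α : ℝ} (hα : 0 < α) : ∃ C : ℝ, ∀ r : ℝ, 0 < r → r ≤ 1 →
    (∫ x, |x| ^ α * |U r x|) * ((α + 1) * 2 ^ α) ≤
      1 / 2 * (1 + (1 - 21 / 1000 * r) ^ (α + 1)) + C * r ^ (α + 1) := by
  refine ⟨2 ^ (α + 1) / (α + 2) * (25 / 64 / 25 ^ (α + 2) + 2 * (159975 / 64) / 10665 ^ (α + 2)), ?_⟩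
  intro r h0 h1
  rw [moment_U h0 h1 hα]
  set d := 21 / 2000 * r with hd
  have hd0 : 0 < d := by positivity
  have hd1 : d < 1 / 2 := by rw [hd]; linarith
  have hHH := hh (a := 1 / 2) (b := 1 / 2 - d) (p := α + 1) (by linarith) (by linarith) (by linarith)
  have e1 : (1 / 2 : ℝ) - (1 / 2 - d) = d := by ring
  have e2 : α + 1 + 1 = α + 2 := by ring
  rw [e1, e2] at hHH
  have hpow : ∀ c : ℝ, 0 < c → (r / c) ^ (α + 2) = r * r ^ (α + 1) / c ^ (α + 2) := by
    intro c hc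
    rw [Real.div_rpow h0.le hc.le]
    congr 1
    have : α + 2 = (α + 1) + 1 := by ring
    rw [this, Real.rpow_add_one' h0.le (by linarith)]
    ring
  have hneg : 0 ≤ 2500 / r * (r / 2000) ^ (α + 2) := by positivity
  have t2 : 25 / 64 / r * (r / 25) ^ (α + 2) = 25 / 64 / 25 ^ (α + 2) * r ^ (α + 1) := by
    rw [hpow 25 (by norm_num)]
    field_simp
  have t3 : 2 * (159975 / 64 / r) * (r / 10665) ^ (α + 2) =
      2 * (159975 / 64) / 10665 ^ (α + 2) * r ^ (α + 1) := by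
    rw [hpow 10665 (by norm_num)]
    field_simp
  rw [t2, t3]
  have p1 : (2:ℝ) ^ (α + 1) = 2 * 2 ^ α := by
    rw [Real.rpow_add_one' (by norm_num) (by linarith)]; ring
  have h2a : (0:ℝ) < 2 ^ α := Real.rpow_pos_of_pos (by norm_num) _
  have p2 : (2:ℝ) ^ (α + 1) * (1 / 2) ^ (α + 1) = 1 := by
    rw [← Real.mul_rpow (by norm_num) (by norm_num)]; norm_num
  have p3 : (2:ℝ) ^ (α + 1) * (1 / 2 - d) ^ (α + 1) = (1 - 21 / 1000 * r) ^ (α + 1) := by
    rw [← Real.mul_rpow (by norm_num) (by linarith)]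
    congr 1
    rw [hd]; ring
  set A := (1 / 2 : ℝ) ^ (α + 1) with hA
  set B := (1 / 2 - d) ^ (α + 1) with hB
  set X := ((1 / 2 : ℝ) ^ (α + 2) - (1 / 2 - d) ^ (α + 2)) / d with hX
  set Y := 2500 / r * (r / 2000) ^ (α + 2) with hY
  set Z := 25 / 64 / (25:ℝ) ^ (α + 2) with hZ
  set W := 2 * (159975 / 64) / (10665:ℝ) ^ (α + 2) with hW
  rw [← p3]
  have hfac : 2 / ((α + 1) * (α + 2)) * (X - Y + Z * r ^ (α + 1) + W * r ^ (α + 1)) *
      ((α + 1) * 2 ^ α) = 2 ^ (α + 1) / (α + 2) * (X - Y) +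
        2 ^ (α + 1) / (α + 2) * (Z + W) * r ^ (α + 1) := by
    rw [p1]
    field_simp
    ring
  rw [hfac]
  have hle : 2 ^ (α + 1) / (α + 2) * (X - Y) ≤ 2 ^ (α + 1) / (α + 2) * ((α + 2) * (A + B) / 2) := by
    apply mul_le_mul_of_nonneg_left _ (by positivity)
    linarith
  have heq : (2:ℝ) ^ (α + 1) / (α + 2) * ((α + 2) * (A + B) / 2) =
      1 / 2 * (2 ^ (α + 1) * A + 2 ^ (α + 1) * B) := by
    field_simp
  rw [heq, p2] at hle
  linarith

theorem main_general {α : ℝ} (hα : 0 < α) : ∃ w : ℝ → ℝ, Integrable w ∧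
    (∀ x ∈ Set.Icc (-1 / 2 : ℝ) (1 / 2), w x ≠ 0) ∧
    (∀ x, x ∉ Set.Icc (-1 / 2 : ℝ) (1 / 2) → w x = 0) ∧
    Phi α (fun x : ℝ => (w x : ℂ)) < Phi α chi := by
  obtain ⟨C, hC⟩ := moment_le hα
  obtain ⟨r, h0, h1, hr⟩ := exists_small hα C
  refine ⟨vr r, (integrable_U h0 h1).congr (vr_ae h0 h1).symm, fun _ hx => vr_ne_zero hx,
    fun _ hx => vr_outside h0 h1 hx, ?_⟩
  refine lt_of_le_of_lt (Phi_vr_le h0 h1 hα) (lt_of_lt_of_le ?_ (Phi_chi_ge hα))
  have hpi := Real.pi_pos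
  have hN1 : 0 < 1 - 21 / 2000 * r + r / 22752 := by linarith
  have h2a : (0:ℝ) < 2 ^ α := Real.rpow_pos_of_pos (by norm_num) _
  have h3 : ENNReal.ofReal (1 / Real.pi) ^ α ≠ 0 := by
    apply (ENNReal.rpow_pos _ ENNReal.ofReal_ne_top).ne'
    rw [ENNReal.ofReal_pos]; positivity
  have h4 : ENNReal.ofReal (1 / Real.pi) ^ α ≠ ⊤ :=
    ENNReal.rpow_ne_top_of_nonneg hα.le ENNReal.ofReal_ne_top
  refine (ENNReal.mul_lt_mul_iff_right h3 h4).2 ?_
  rw [ENNReal.ofReal_lt_ofReal_iff (by positivity), div_lt_div_iff₀ (Real.rpow_pos_of_pos hN1 _)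
    (by positivity)]
  have := hC r h0 h1
  linarith

end Pool.Agent.Q206.Unc
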