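import Pool.Agent.Q206.Unc.Chi

namespace Pool.Agent.Q206.Unc

open MeasureTheory Complex FourierTransform

/-- `F_bound` with an arbitrary first factor -/
theorem F_bound' {t c : ℝ} (ht : 0 < t) (hc : |c| ≤ 1) :
    |c * Real.sin (21 / 2000 * t) / (21 / 2000 * t) -
      5 / 4 * (Real.sin (t / 2000) ^ 2 / (t / 2000) -
        Real.sin (t / 25) ^ 2 / 2000 / ((1 / 25) ^ 2 * t))| ≤ 1 := by
  obtain ⟨b1, b2, b3⟩ := spike_bounds ht
  set s := Real.sin (t / 2000) ^ 2 / (t / 2000) -
    Real.sin (t / 25) ^ 2 / 2000 / ((1 / 25) ^ 2 * t) with hs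
  set x := 21 / 2000 * t with hx
  have hx0 : 0 < x := by positivity
  have key : |c * Real.sin x / x| ≤ |Real.sin x| / x := by
    rw [abs_div, abs_mul, abs_of_pos hx0]
    gcongr
    have h2 := abs_nonneg (Real.sin x)
    nlinarith
  have goal' : |Real.sin x| / x + 5 / 4 * |s| ≤ 1 → |c * Real.sin x / x - 5 / 4 * s| ≤ 1 := by
    intro h
    calc _ ≤ |c * Real.sin x / x| + |5 / 4 * s| := abs_sub _ _
      _ ≤ |Real.sin x| / x + 5 / 4 * |s| := by
          rw [abs_mul, abs_of_pos (show (0:ℝ) < 5 / 4 by norm_num)]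
          linarith
      _ ≤ 1 := h
  apply goal'
  have ht' : t = 2000 / 21 * x := by rw [hx]; ring
  rcases le_total x 2 with h1 | h1
  · have hsin : 0 ≤ Real.sin x :=
      Real.sin_nonneg_of_nonneg_of_le_pi hx0.le (by linarith [Real.pi_gt_three])
    rw [abs_of_nonneg hsin]
    have h2 : Real.sin x / x ≤ 1 - x ^ 2 / 6 + x ^ 4 / 120 := by
      rw [div_le_iff₀ hx0]
      have := sin_le_P5 x hx0.le
      nlinarith
    have h3 : |s| ≤ t / 2000 * (58 / 100 * (t / 25)) := by
      rcases le_total (t / 25) (174 / 100) with h4 | h4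
      · refine b2.trans ?_
        have : (t / 25) ^ 2 / 3 ≤ 58 / 100 * (t / 25) := by nlinarith [show 0 < t / 25 by positivity]
        exact mul_le_mul_of_nonneg_left this (by positivity)
      · refine b1.trans ?_
        have : (1:ℝ) ≤ 58 / 100 * (t / 25) := by linarith
        nlinarith
    have h5 : 5 / 4 * (t / 2000 * (58 / 100 * (t / 25))) ≤ x ^ 2 / 6 - x ^ 4 / 120 := by
      rw [ht']
      have h6 : x ^ 4 ≤ 4 * x ^ 2 := by
        have : x ^ 2 ≤ 4 := by nlinarith
        nlinarith [sq_nonneg x]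
      nlinarith [sq_nonneg x]
    linarith
  · have h2 : |Real.sin x| / x ≤ 1 / x := by
      gcongr
      exact Real.abs_sin_le_one x
    rcases le_total x 15 with h3 | h3
    · have h4 : |s| ≤ x / 21 := by
        refine b1.trans (le_of_eq ?_)
        rw [ht']; ring
      have h5 : 1 / x + 5 / 4 * (x / 21) ≤ 1 := by
        rw [div_add' _ _ _ hx0.ne', div_le_one hx0]
        nlinarith
      linarith
    · have h4 : |s| ≤ 74 / 100 := by
        refine b3.trans (max_le le_rfl ?_)
        rw [div_le_iff₀ ht]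
        linarith
      have h5 : 1 / x ≤ 1 / 15 := by gcongr
      linarith

/-- moments of the tent -/
theorem integral_rpow_g {h α : ℝ} (hh : 0 ≤ h) (hα : 0 < α) :
    ∫ x, |x| ^ α * g h x = 2 * h ^ (α + 2) / ((α + 1) * (α + 2)) := by
  have hc : Continuous fun x : ℝ => |x| ^ α := by
    apply Continuous.rpow_const continuous_abs
    intro x; right; exact hα.le
  have h1 := integral_g_mul hh (fun x => ((|x| ^ α : ℝ) : ℂ)) (Complex.continuous_ofReal.comp hc)
  have h2 : ∀ x : ℝ, ((|-x| ^ α : ℝ) : ℂ) * ((h - x : ℝ) : ℂ) = ((|x| ^ α * (h - x) : ℝ) : ℂ) := by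
    intro x; rw [abs_neg]; push_cast; ring
  have h3 : ∀ x : ℝ, ((|x| ^ α : ℝ) : ℂ) * ((h - x : ℝ) : ℂ) = ((|x| ^ α * (h - x) : ℝ) : ℂ) := by
    intro x; push_cast; ring
  have h4 : ∫ x in (0:ℝ)..h, |x| ^ α * (h - x) = h ^ (α + 2) / ((α + 1) * (α + 2)) := by
    have e1 : ∫ x in (0:ℝ)..h, |x| ^ α * (h - x) =
        ∫ x in (0:ℝ)..h, (h * x ^ α - x ^ (α + 1)) := by
      apply intervalIntegral.integral_congr
      intro x hx
      rw [Set.uIcc_of_le hh, Set.mem_Icc] at hx
      simp only
      rw [abs_of_nonneg hx.1, Real.rpow_add_one' hx.1 (by linarith)]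
      ring
    rw [e1, intervalIntegral.integral_sub, intervalIntegral.integral_const_mul,
      integral_rpow (Or.inl (by linarith)), integral_rpow (Or.inl (by linarith)),
      Real.zero_rpow (by linarith), Real.zero_rpow (by linarith)]
    · have e2 : α + 1 + 1 = α + 2 := by ring
      have e3 : h ^ (α + 2) = h * h ^ (α + 1) := by
        rw [← e2, Real.rpow_add_one' hh (by linarith)]; ring
      rw [e2, e3]
      field_simp
      ring
    · apply IntervalIntegrable.const_mul
      exact intervalIntegral.intervalIntegrable_rpow' (by linarith)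
    · exact intervalIntegral.intervalIntegrable_rpow' (by linarith)
  simp only [h2, h3] at h1
  rw [intervalIntegral.integral_ofReal, h4] at h1
  have h5 : ∀ x : ℝ, ((|x| ^ α : ℝ) : ℂ) * (g h x : ℂ) = ((|x| ^ α * g h x : ℝ) : ℂ) := by
    intro x; push_cast; ring
  simp only [h5] at h1
  have h7 : ∫ x, ((|x| ^ α * g h x : ℝ) : ℂ) = ((∫ x, |x| ^ α * g h x : ℝ) : ℂ) :=
    integral_complex_ofReal
  rw [h7] at h1
  have h6 : ((∫ x, |x| ^ α * g h x : ℝ) : ℂ) =
      ((2 * h ^ (α + 2) / ((α + 1) * (α + 2)) : ℝ) : ℂ) := by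
    rw [h1]; push_cast; ring
  exact_mod_cast h6

theorem integrable_rpow_g {α : ℝ} (hα : 0 < α) (h : ℝ) : Integrable fun x => |x| ^ α * g h x := by
  have hc : Continuous fun x : ℝ => |x| ^ α := by
    apply Continuous.rpow_const continuous_abs
    intro x; right; exact hα.le
  exact (hc.mul (continuous_g h)).integrable_of_hasCompactSupport (hasCompactSupport_g h).mul_left

/-- the family of counterexamples -/
noncomputable def U (r x : ℝ) : ℝ :=
  (g (1 / 2) x - g (1 / 2 - 21 / 2000 * r) x) / (21 / 2000 * r) - 2500 / r * g (r / 2000) x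
    + 25 / 64 / r * g (r / 25) x

section
variable {r : ℝ} (h0 : 0 < r) (h1 : r ≤ 1)
include h0 h1

theorem trapU_nonneg (x : ℝ) :
    0 ≤ (g (1 / 2) x - g (1 / 2 - 21 / 2000 * r) x) / (21 / 2000 * r) :=
  div_nonneg (sub_nonneg.2 (g_mono (by linarith))) (by linarith)

theorem U_near {x : ℝ} (hx : |x| ≤ r / 2000) : U r x = 159975 / 64 / r * (|x| - r / 10665) := by
  unfold U
  rw [g_eq (h := 1 / 2) (by linarith), g_eq (h := 1 / 2 - 21 / 2000 * r) (by linarith), g_eq hx,
    g_eq (h := r / 25) (by linarith)]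
  field_simp
  ring

theorem U_far {x : ℝ} (hx : r / 2000 ≤ |x|) : 0 ≤ U r x := by
  unfold U
  rw [g_eq_zero hx]
  have := trapU_nonneg h0 h1 x
  have h2 : 0 ≤ 25 / 64 / r * g (r / 25) x := mul_nonneg (by positivity) (g_nonneg _ _)
  linarith

theorem U_pos {x : ℝ} (hx : r / 2000 ≤ |x|) (hx2 : |x| < 1 / 2) : 0 < U r x := by
  unfold U
  rw [g_eq_zero hx, g_eq (h := 1 / 2) hx2.le]
  have h2 : 0 ≤ 25 / 64 / r * g (r / 25) x := mul_nonneg (by positivity) (g_nonneg _ _)
  have h3 : 0 < 1 / 2 - |x| - g (1 / 2 - 21 / 2000 * r) x := by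
    unfold g
    rcases max_cases (1 / 2 - 21 / 2000 * r - |x|) 0 with h | h <;> linarith
  have h4 : 0 < (1 / 2 - |x| - g (1 / 2 - 21 / 2000 * r) x) / (21 / 2000 * r) := by positivity
  linarith

theorem abs_U (x : ℝ) : |U r x| = U r x + 2 * (159975 / 64 / r) * g (r / 10665) x := by
  have hs : 0 < 159975 / 64 / r := by positivity
  rcases le_total |x| (r / 10665) with h | h
  · have h2 := U_near h0 h1 (x := x) (by linarith)
    rw [g_eq h, abs_of_nonpos (by rw [h2]; exact mul_nonpos_of_nonneg_of_nonpos hs.le (by linarith)),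
      h2]
    ring
  · rw [g_eq_zero h]
    rcases le_total |x| (r / 2000) with h2 | h2
    · have h3 := U_near h0 h1 h2
      rw [abs_of_nonneg (by rw [h3]; exact mul_nonneg hs.le (by linarith))]
      ring
    · rw [abs_of_nonneg (U_far h0 h1 h2)]; ring

theorem integrable_U : Integrable (U r) := by
  unfold U
  exact ((((integrable_g _).sub (integrable_g _)).div_const _).sub
    ((integrable_g _).const_mul _)).add ((integrable_g _).const_mul _)

theorem integral_U : ∫ x, U r x = 1 - 21 / 2000 * r := by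
  unfold U
  rw [integral_comb_real (integrable_g _) (integrable_g _) (integrable_g _) (integrable_g _),
    integral_g (by norm_num), integral_g (by linarith),
    integral_g (by positivity), integral_g (by positivity)]
  field_simp
  ring

theorem integral_abs_U : ∫ x, |U r x| = 1 - 21 / 2000 * r + r / 22752 := by
  simp only [abs_U h0 h1]
  rw [integral_add (integrable_U h0 h1) ((integrable_g _).const_mul _), integral_const_mul,
    integral_U h0 h1, integral_g (by positivity)]
  field_simp
  ring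

theorem moment_U {α : ℝ} (hα : 0 < α) : ∫ x, |x| ^ α * |U r x| =
    2 / ((α + 1) * (α + 2)) *
      (((1 / 2) ^ (α + 2) - (1 / 2 - 21 / 2000 * r) ^ (α + 2)) / (21 / 2000 * r) -
        2500 / r * (r / 2000) ^ (α + 2) + 25 / 64 / r * (r / 25) ^ (α + 2) +
        2 * (159975 / 64 / r) * (r / 10665) ^ (α + 2)) := by
  have e : (fun x => |x| ^ α * |U r x|) = fun x =>
      ((|x| ^ α * g (1 / 2) x - |x| ^ α * g (1 / 2 - 21 / 2000 * r) x) / (21 / 2000 * r) -
        2500 / r * (|x| ^ α * g (r / 2000) x) + 25 / 64 / r * (|x| ^ α * g (r / 25) x)) +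
        2 * (159975 / 64 / r) * (|x| ^ α * g (r / 10665) x) := by
    funext x
    rw [abs_U h0 h1]
    unfold U
    ring
  have i1 : Integrable fun x =>
      ((|x| ^ α * g (1 / 2) x - |x| ^ α * g (1 / 2 - 21 / 2000 * r) x) / (21 / 2000 * r) -
        2500 / r * (|x| ^ α * g (r / 2000) x) + 25 / 64 / r * (|x| ^ α * g (r / 25) x)) :=
    ((((integrable_rpow_g hα _).sub (integrable_rpow_g hα _)).div_const _).sub
      ((integrable_rpow_g hα _).const_mul _)).add ((integrable_rpow_g hα _).const_mul _)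
  rw [e, integral_add i1 ((integrable_rpow_g hα _).const_mul _), integral_const_mul,
    integral_comb_real (integrable_rpow_g hα _) (integrable_rpow_g hα _) (integrable_rpow_g hα _)
    (integrable_rpow_g hα _), integral_rpow_g (by norm_num) hα, integral_rpow_g (by linarith) hα,
    integral_rpow_g (by positivity) hα, integral_rpow_g (by positivity) hα,
    integral_rpow_g (by positivity) hα]
  field_simp

end

end Pool.Agent.Q206.Unc
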