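import Pool.Agent.Q206.Unc.GenFunc

set_option linter.unusedSectionVars false

namespace Pool.Agent.Q206.Unc

open MeasureTheory Complex FourierTransform
open scoped ENNReal

section
variable {r : ℝ} (h0 : 0 < r) (h1 : r ≤ 1)
include h0 h1

/-- the Fourier transform of `U r` -/
theorem fourier_U {ξ : ℝ} (hξ : ξ ≠ 0) : 𝓕 (fun x : ℝ => (U r x : ℂ)) ξ =
    ((((Real.sin (Real.pi * ξ * (1 / 2)) ^ 2 -
        Real.sin (Real.pi * ξ * (1 / 2 - 21 / 2000 * r)) ^ 2) / (21 / 2000 * r)
      - 2500 / r * Real.sin (Real.pi * ξ * (r / 2000)) ^ 2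
      + 25 / 64 / r * Real.sin (Real.pi * ξ * (r / 25)) ^ 2) / (Real.pi * ξ) ^ 2 : ℝ) : ℂ) := by
  have hg : ∀ h : ℝ, 0 ≤ h → ∫ v : ℝ, Complex.exp (((-2 * Real.pi * v * ξ : ℝ) : ℂ) * I) * (g h v : ℂ) =
      ((Real.sin (Real.pi * ξ * h) ^ 2 / (Real.pi * ξ) ^ 2 : ℝ) : ℂ) := by
    intro h hh
    have := fourier_g hh hξ
    rw [Real.fourier_real_eq_integral_exp_smul] at this
    simpa only [smul_eq_mul] using this
  have hi : ∀ h : ℝ, Integrable fun v : ℝ =>
      Complex.exp (((-2 * Real.pi * v * ξ : ℝ) : ℂ) * I) * (g h v : ℂ) := by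
    intro h
    have hc : Continuous fun v : ℝ =>
      Complex.exp (((-2 * Real.pi * v * ξ : ℝ) : ℂ) * I) * (g h v : ℂ) := by
      have := continuous_g h
      fun_prop
    refine hc.integrable_of_hasCompactSupport ?_
    exact ((hasCompactSupport_g h).comp_left (g := fun x : ℝ => (x : ℂ)) (by simp)).mul_left
  rw [Real.fourier_real_eq_integral_exp_smul]
  have h2 : ∀ v : ℝ, Complex.exp (((-2 * Real.pi * v * ξ : ℝ) : ℂ) * I) • ((U r v : ℝ) : ℂ) =
      (Complex.exp (((-2 * Real.pi * v * ξ : ℝ) : ℂ) * I) * (g (1 / 2) v : ℂ) -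
        Complex.exp (((-2 * Real.pi * v * ξ : ℝ) : ℂ) * I) * (g (1 / 2 - 21 / 2000 * r) v : ℂ)) /
          (21 / 2000 * r) -
      2500 / r * (Complex.exp (((-2 * Real.pi * v * ξ : ℝ) : ℂ) * I) * (g (r / 2000) v : ℂ)) +
      25 / 64 / r * (Complex.exp (((-2 * Real.pi * v * ξ : ℝ) : ℂ) * I) * (g (r / 25) v : ℂ)) := by
    intro v; unfold U; rw [smul_eq_mul]; push_cast; ring
  simp only [h2]
  rw [integral_comb (hi _) (hi _) (hi _) (hi _),
    hg _ (by norm_num), hg _ (by linarith), hg _ (by positivity), hg _ (by positivity)]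
  push_cast
  ring

theorem xi_bound_U (ξ : ℝ) : |ξ| * ‖𝓕 (fun x : ℝ => (U r x : ℂ)) ξ‖ ≤ 1 / Real.pi := by
  rcases eq_or_ne ξ 0 with hξ0 | hξ0
  · rw [hξ0, abs_zero, zero_mul]; positivity
  rw [fourier_U h0 h1 hξ0, Complex.norm_real, Real.norm_eq_abs]
  set t := Real.pi * |ξ| with ht
  have ht0 : 0 < t := by have := Real.pi_pos; positivity
  have hs : ∀ c : ℝ, Real.sin (Real.pi * ξ * c) ^ 2 = Real.sin (t * c) ^ 2 := by
    intro c
    rcases abs_cases ξ with h | h
    · rw [ht, h.1]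
    · rw [ht, h.1]
      have : Real.pi * -ξ * c = -(Real.pi * ξ * c) := by ring
      rw [this, Real.sin_neg, neg_sq]
  have hsq : (Real.pi * ξ) ^ 2 = t ^ 2 := by rw [ht, mul_pow, mul_pow, sq_abs]
  rw [hs, hs, hs, hs, hsq]
  have hrt : 0 < r * t := by positivity
  have hF := F_bound' (c := Real.sin ((1 - 21 / 2000 * r) * t)) hrt (Real.abs_sin_le_one _)
  have hdiff : Real.sin (t * (1 / 2)) ^ 2 - Real.sin (t * (1 / 2 - 21 / 2000 * r)) ^ 2 =
      Real.sin ((1 - 21 / 2000 * r) * t) * Real.sin (21 / 2000 * (r * t)) := by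
    have e1 : (1 - 21 / 2000 * r) * t = t * (1 / 2) + t * (1 / 2 - 21 / 2000 * r) := by ring
    have e2 : 21 / 2000 * (r * t) = t * (1 / 2) - t * (1 / 2 - 21 / 2000 * r) := by ring
    rw [e1, e2, Real.sin_add, Real.sin_sub]
    have c1 := Real.cos_sq' (t * (1 / 2))
    have c2 := Real.cos_sq' (t * (1 / 2 - 21 / 2000 * r))
    linear_combination (-(Real.sin (t * (1 / 2)) ^ 2)) * c2 +
      (Real.sin (t * (1 / 2 - 21 / 2000 * r)) ^ 2) * c1
  have hnum : ((Real.sin (t * (1 / 2)) ^ 2 - Real.sin (t * (1 / 2 - 21 / 2000 * r)) ^ 2) /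
        (21 / 2000 * r) -
      2500 / r * Real.sin (t * (r / 2000)) ^ 2 + 25 / 64 / r * Real.sin (t * (r / 25)) ^ 2) / t ^ 2 =
      (Real.sin ((1 - 21 / 2000 * r) * t) * Real.sin (21 / 2000 * (r * t)) / (21 / 2000 * (r * t)) -
      5 / 4 * (Real.sin (r * t / 2000) ^ 2 / (r * t / 2000) -
        Real.sin (r * t / 25) ^ 2 / 2000 / ((1 / 25) ^ 2 * (r * t)))) / t := by
    rw [hdiff]
    have e3 : t * (r / 2000) = r * t / 2000 := by ring
    have e4 : t * (r / 25) = r * t / 25 := by ring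
    rw [e3, e4]
    field_simp
    ring
  rw [hnum, abs_div, abs_of_pos ht0]
  have hξ : |ξ| = t / Real.pi := by rw [ht]; field_simp
  rw [hξ]
  have hpi := Real.pi_pos
  have hgen : ∀ X : ℝ, |X| ≤ 1 → t / Real.pi * (|X| / t) ≤ 1 / Real.pi := by
    intro X hX
    calc t / Real.pi * (|X| / t) = |X| / Real.pi := by field_simp
      _ ≤ 1 / Real.pi := by gcongr
  exact hgen _ hF

end

/-- `U r`, changed to `1` at its four zeros in `[-1/2, 1/2]` -/
noncomputable def vr (r x : ℝ) : ℝ :=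
  open Classical in if x ∈ Set.Icc (-1 / 2 : ℝ) (1 / 2) ∧ U r x = 0 then 1 else U r x

theorem vr_ne_zero {r x : ℝ} (hx : x ∈ Set.Icc (-1 / 2 : ℝ) (1 / 2)) : vr r x ≠ 0 := by
  unfold vr
  split_ifs with h
  · exact one_ne_zero
  · intro h0; exact h ⟨hx, h0⟩

theorem vr_outside {r x : ℝ} (h0 : 0 < r) (h1 : r ≤ 1) (hx : x ∉ Set.Icc (-1 / 2 : ℝ) (1 / 2)) :
    vr r x = 0 := by
  unfold vr
  rw [if_neg (fun h => hx h.1)]
  have h2 : 1 / 2 ≤ |x| := by
    rw [Set.mem_Icc, not_and_or, not_le, not_le] at hx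
    rcases hx with hx | hx
    · have := neg_le_abs x; linarith
    · have := le_abs_self x; linarith
  unfold U
  rw [g_eq_zero h2, g_eq_zero (by linarith), g_eq_zero (by linarith), g_eq_zero (by linarith)]
  norm_num

theorem vr_ae {r : ℝ} (h0 : 0 < r) (h1 : r ≤ 1) : vr r =ᵐ[volume] U r := by
  have hfin : ({r / 10665, -(r / 10665), 1 / 2, -(1 / 2)} : Set ℝ).Finite := Set.toFinite _
  have hz : volume ({r / 10665, -(r / 10665), 1 / 2, -(1 / 2)} : Set ℝ) = 0 := hfin.measure_zero _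
  filter_upwards [compl_mem_ae_iff.2 hz] with x hx
  unfold vr
  rw [if_neg]
  rintro ⟨hI, hu⟩
  apply hx
  have habs : |x| ≤ 1 / 2 := by
    rw [Set.mem_Icc] at hI
    rw [abs_le]; constructor <;> linarith
  have hcase : |x| = r / 10665 ∨ |x| = 1 / 2 := by
    rcases le_total |x| (r / 2000) with h | h
    · left
      have h3 := U_near h0 h1 h
      rw [hu] at h3
      have h4 : (159975 / 64 / r) ≠ 0 := by positivity
      have h5 := (mul_eq_zero.1 h3.symm).resolve_left h4
      linarith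
    · right
      by_contra hne
      exact absurd hu (U_pos h0 h1 h (lt_of_le_of_ne habs hne)).ne'
  simp only [Set.mem_insert_iff, Set.mem_singleton_iff]
  rcases hcase with h | h
  · rcases (abs_eq (by positivity)).1 h with h | h
    · left; exact h
    · right; left; exact h
  · rcases (abs_eq (by norm_num)).1 h with h | h
    · right; right; left; exact h
    · right; right; right; exact h

/-- `Φ_α` at `vr r` -/
theorem Phi_vr_le {r α : ℝ} (h0 : 0 < r) (h1 : r ≤ 1) (hα : 0 < α) :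
    Phi α (fun x : ℝ => (vr r x : ℂ)) ≤ ENNReal.ofReal (1 / Real.pi) ^ α *
      ENNReal.ofReal ((∫ x, |x| ^ α * |U r x|) / (1 - 21 / 2000 * r + r / 22752) ^ (α + 1)) := by
  have hae := vr_ae h0 h1
  have hN1 : 0 < 1 - 21 / 2000 * r + r / 22752 := by linarith
  have hsup : supXi (fun x : ℝ => (vr r x : ℂ)) ≤ ENNReal.ofReal (1 / Real.pi) := by
    unfold supXi
    apply iSup_le
    intro ξ
    have : 𝓕 (fun x : ℝ => (vr r x : ℂ)) ξ = 𝓕 (fun x : ℝ => (U r x : ℂ)) ξ := by
      rw [Real.fourier_real_eq_integral_exp_smul, Real.fourier_real_eq_integral_exp_smul]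
      apply integral_congr_ae
      filter_upwards [hae] with x hx
      rw [hx]
    rw [this]
    exact ENNReal.ofReal_le_ofReal (xi_bound_U h0 h1 ξ)
  have hnorm : ∫⁻ x, ENNReal.ofReal ‖(vr r x : ℂ)‖ =
      ENNReal.ofReal (1 - 21 / 2000 * r + r / 22752) := by
    rw [← integral_abs_U h0 h1, ofReal_integral_eq_lintegral_ofReal (integrable_U h0 h1).abs
      (Filter.Eventually.of_forall fun x => abs_nonneg _)]
    apply lintegral_congr_ae
    filter_upwards [hae] with x hx
    rw [hx, Complex.norm_real, Real.norm_eq_abs]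
  have hint : Integrable fun x => |x| ^ α * |U r x| := by
    have hc : Continuous fun x : ℝ => |x| ^ α := by
      apply Continuous.rpow_const continuous_abs
      intro x; right; exact hα.le
    have e : (fun x => |x| ^ α * |U r x|) = fun x =>
        ((|x| ^ α * g (1 / 2) x - |x| ^ α * g (1 / 2 - 21 / 2000 * r) x) / (21 / 2000 * r) -
        2500 / r * (|x| ^ α * g (r / 2000) x) + 25 / 64 / r * (|x| ^ α * g (r / 25) x)) +
        2 * (159975 / 64 / r) * (|x| ^ α * g (r / 10665) x) := by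
      funext x
      rw [abs_U h0 h1]
      unfold U
      ring
    rw [e]
    exact (((((integrable_rpow_g hα _).sub (integrable_rpow_g hα _)).div_const _).sub
      ((integrable_rpow_g hα _).const_mul _)).add ((integrable_rpow_g hα _).const_mul _)).add
      ((integrable_rpow_g hα _).const_mul _)
  have hmom : ∫⁻ x, ENNReal.ofReal (|x| ^ α * ‖(vr r x : ℂ)‖) =
      ENNReal.ofReal (∫ x, |x| ^ α * |U r x|) := by
    rw [ofReal_integral_eq_lintegral_ofReal hint
      (Filter.Eventually.of_forall fun x => by positivity)]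
    apply lintegral_congr_ae
    filter_upwards [hae] with x hx
    rw [hx, Complex.norm_real, Real.norm_eq_abs]
  unfold Phi
  rw [hnorm, hmom, ENNReal.ofReal_rpow_of_pos hN1, mul_div_assoc,
    ENNReal.ofReal_div_of_pos (x := ∫ x, |x| ^ α * |U r x|)
      (y := (1 - 21 / 2000 * r + r / 22752) ^ (α + 1)) (Real.rpow_pos_of_pos hN1 _)]
  gcongr

end Pool.Agent.Q206.Unc
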