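import Pool.Agent.Q206.Unc.Chi

namespace Pool.Agent.Q206.Unc

open MeasureTheory Complex FourierTransform
open scoped ENNReal

/-- `u`, changed to `1` at its four zeros in `[-1/2, 1/2]` -/
noncomputable def v (x : ℝ) : ℝ :=
  open Classical in if x ∈ Set.Icc (-1 / 2 : ℝ) (1 / 2) ∧ u x = 0 then 1 else u x

theorem v_ne_zero {x : ℝ} (hx : x ∈ Set.Icc (-1 / 2 : ℝ) (1 / 2)) : v x ≠ 0 := by
  unfold v
  split_ifs with h
  · exact one_ne_zero
  · intro h0; exact h ⟨hx, h0⟩

theorem v_outside {x : ℝ} (hx : x ∉ Set.Icc (-1 / 2 : ℝ) (1 / 2)) : v x = 0 := by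
  unfold v
  rw [if_neg (fun h => hx h.1)]
  have h1 : 1 / 2 ≤ |x| := by
    rw [Set.mem_Icc, not_and_or, not_le, not_le] at hx
    rcases hx with hx | hx
    · have := neg_le_abs x; linarith
    · have := le_abs_self x; linarith
  unfold u
  rw [g_eq_zero h1, g_eq_zero (by linarith), g_eq_zero (by linarith), g_eq_zero (by linarith)]
  norm_num

theorem v_ae : v =ᵐ[volume] u := by
  have hfin : ({1 / 10665, -(1 / 10665), 1 / 2, -(1 / 2)} : Set ℝ).Finite := Set.toFinite _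
  have h0 : volume ({1 / 10665, -(1 / 10665), 1 / 2, -(1 / 2)} : Set ℝ) = 0 := hfin.measure_zero _
  filter_upwards [compl_mem_ae_iff.2 h0] with x hx
  unfold v
  rw [if_neg]
  rintro ⟨hI, hu⟩
  apply hx
  have habs : |x| ≤ 1 / 2 := by
    rw [Set.mem_Icc] at hI
    rw [abs_le]; constructor <;> linarith
  have hcase : |x| = 1 / 10665 ∨ |x| = 1 / 2 := by
    rcases le_total |x| (1 / 2000) with h | h
    · left
      have h1 := u_near h
      rw [hu] at h1
      linarith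
    · right
      by_contra hne
      exact absurd hu (u_pos h (lt_of_le_of_ne habs hne)).ne'
  simp only [Set.mem_insert_iff, Set.mem_singleton_iff]
  rcases hcase with h | h
  · rcases (abs_eq (by norm_num)).1 h with h | h
    · left; exact h
    · right; left; exact h
  · rcases (abs_eq (by norm_num)).1 h with h | h
    · right; right; left; exact h
    · right; right; right; exact h

theorem integrable_v : Integrable v := integrable_u.congr v_ae.symm

theorem fourier_v (ξ : ℝ) : 𝓕 (fun x : ℝ => (v x : ℂ)) ξ = 𝓕 (fun x : ℝ => (u x : ℂ)) ξ := by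
  rw [Real.fourier_real_eq_integral_exp_smul, Real.fourier_real_eq_integral_exp_smul]
  apply integral_congr_ae
  filter_upwards [v_ae] with x hx
  rw [hx]

theorem supXi_v : supXi (fun x : ℝ => (v x : ℂ)) ≤ ENNReal.ofReal (1 / Real.pi) := by
  unfold supXi
  apply iSup_le
  intro ξ
  rw [fourier_v]
  exact ENNReal.ofReal_le_ofReal (xi_bound ξ)

theorem norm_v : ∫⁻ x, ENNReal.ofReal ‖(v x : ℂ)‖ = ENNReal.ofReal (∫ x, |u x|) := by
  rw [ofReal_integral_eq_lintegral_ofReal integrable_u.abs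
    (Filter.Eventually.of_forall fun x => abs_nonneg _)]
  apply lintegral_congr_ae
  filter_upwards [v_ae] with x hx
  rw [hx, Complex.norm_real, Real.norm_eq_abs]

theorem integrable_sq_abs_u : Integrable fun x => x ^ 2 * |u x| := by
  refine (integrable_sq_u.abs).congr (Filter.Eventually.of_forall fun x => ?_)
  simp only
  rw [abs_mul, abs_of_nonneg (sq_nonneg x)]

theorem moment_v : ∫⁻ x, ENNReal.ofReal (|x| ^ (2 : ℝ) * ‖(v x : ℂ)‖) =
    ENNReal.ofReal (∫ x, x ^ 2 * |u x|) := by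
  rw [ofReal_integral_eq_lintegral_ofReal integrable_sq_abs_u
    (Filter.Eventually.of_forall fun x => by positivity)]
  apply lintegral_congr_ae
  filter_upwards [v_ae] with x hx
  rw [hx, Complex.norm_real, Real.norm_eq_abs]
  congr 2
  rw [Real.rpow_two, sq_abs]

theorem Phi_v_lt : Phi 2 (fun x : ℝ => (v x : ℂ)) < Phi 2 chi := by
  have hpi := Real.pi_pos
  have hN1 : 0 < ∫ x, |u x| := by rw [integral_abs_u]; norm_num
  have hlt := final_ineq
  set N1 := ∫ x, |u x| with hN1d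
  set N2 := ∫ x, x ^ 2 * |u x| with hN2d
  have hN2 : 0 ≤ N2 := by
    rw [hN2d]; exact integral_nonneg fun x => by positivity
  refine lt_of_lt_of_le ?_ (Phi_chi_ge (by norm_num : (0:ℝ) < 2))
  have h1 : Phi 2 (fun x : ℝ => (v x : ℂ)) ≤
      ENNReal.ofReal (1 / Real.pi) ^ (2 : ℝ) * ENNReal.ofReal (N2 / N1 ^ 3) := by
    unfold Phi
    rw [norm_v, moment_v, ← hN1d, ← hN2d]
    have e3 : ENNReal.ofReal N1 ^ ((2 : ℝ) + 1) = ENNReal.ofReal (N1 ^ 3) := by
      have : ((2 : ℝ) + 1) = ((3 : ℕ) : ℝ) := by norm_num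
      rw [this, ENNReal.rpow_natCast, ENNReal.ofReal_pow hN1.le]
    rw [e3, mul_div_assoc, ENNReal.ofReal_div_of_pos (x := N2) (y := N1 ^ 3) (by positivity)]
    gcongr
    exact supXi_v
  refine lt_of_le_of_lt h1 ?_
  have h2 : ENNReal.ofReal (N2 / N1 ^ 3) < ENNReal.ofReal (1 / ((2 + 1) * 2 ^ (2 : ℝ))) := by
    rw [ENNReal.ofReal_lt_ofReal_iff (by positivity), Real.rpow_two, div_lt_div_iff₀ (by positivity)
      (by norm_num)]
    linarith
  have h3 : ENNReal.ofReal (1 / Real.pi) ^ (2 : ℝ) ≠ 0 := by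
    apply (ENNReal.rpow_pos _ ENNReal.ofReal_ne_top).ne'
    rw [ENNReal.ofReal_pos]; positivity
  have h4 : ENNReal.ofReal (1 / Real.pi) ^ (2 : ℝ) ≠ ⊤ :=
    ENNReal.rpow_ne_top_of_nonneg (by norm_num) ENNReal.ofReal_ne_top
  exact (ENNReal.mul_lt_mul_iff_right h3 h4).2 h2

theorem main : ∃ w : ℝ → ℝ, Integrable w ∧ (∀ x ∈ Set.Icc (-1 / 2 : ℝ) (1 / 2), w x ≠ 0) ∧
    (∀ x, x ∉ Set.Icc (-1 / 2 : ℝ) (1 / 2) → w x = 0) ∧
    Phi 2 (fun x : ℝ => (w x : ℂ)) < Phi 2 chi :=
  ⟨v, integrable_v, fun _ hx => v_ne_zero hx, fun _ hx => v_outside hx, Phi_v_lt⟩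

end Pool.Agent.Q206.Unc
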